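import Pool.Agent.Run7.h351.Dorofeev
set_option autoImplicit false

/-!
# The free alternative algebra is not separated

The definitions `FreeAlt` (free alternative algebra), `nucleus`, `IsIdeal`, `Dideal` (the associator ideal)
and `Uideal` (the sum of all two-sided ideals contained in the nucleus) are in
`Pool/Agent/Helper805/Nuc/Free.lean`.

Idea. In an alternative algebra let `n` be nuclear. Then `[n, ·]` is a derivation which kills all
associators, `[n, a]` is nuclear and commutes with associators, and `[n, a] (x, y, z)` is skew-symmetric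
in its four variables. Hence `([n, a] (x, y, z)) (u, v, w)` is skew-symmetric in its seven variables; but it
is also unchanged when the two associators are exchanged, so twice it is zero. It follows that
`2 [n, a] d` generates an ideal contained in the nucleus, for every `d` in the associator ideal
(Dorofeev). In the free alternative algebra the element `[n, a] (x, y, z)`, with the nuclear element `n`
and the variables of the starting result on `2 ZN`, is not killed by any power of two.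
-/

namespace Pool.Agent.Results.MP_c4e11e_al.NotSeparated
open Pool.Agent.Helper805.Nuc Pool.Agent.Helper805.Nuc.Tens Pool.Agent.Helper805.Nuc.NFun
  Pool.Agent.Helper805.Nuc.Alt Pool.Agent.Helper805.Nuc.Free Pool.Agent.Helper805.Mod
  Pool.Agent.Y850.ZN Pool.Agent.Run7.h351.Dor

section
variable {A : Type} [NonUnitalNonAssocRing A]

/-- the element `2 [n, w 6] (w 7, w 8, w 9)` -/
def uu (w : Fin 10 → A) : A := br (nn w) (w 6) * as (w 7) (w 8) (w 9) + br (nn w) (w 6) * as (w 7) (w 8) (w 9)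

lemma map_uu {B : Type} [NonUnitalNonAssocRing B] (g : A →ₙ+* B) (w : Fin 10 → A) :
    g (uu w) = uu (fun i => g (w i)) := by
  unfold uu nn
  rw [map_add, map_mul, Clean.map_br, map_zsmul, Clean.map_nf, Clean.map_as]

lemma uu_zero : uu (fun _ => (0 : A)) = 0 := by
  unfold uu
  rw [as_z1, mul_zero, add_zero]

lemma uu_eq (hA : IsAlt A) (w : Fin 10 → A) : uu w = as (zz w) (w 8) (w 9) + as (zz w) (w 8) (w 9) := by
  unfold uu zz
  rw [((nn_nuc hA w).comm hA _).mul_left hA]

variable {Φ : Type} [CommRing Φ] [Module Φ A] [IsScalarTower Φ A A] [SMulCommClass Φ A A]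

lemma uu_mem (hA : IsAlt A) (w : Fin 10 → A) : uu w ∈ Dideal Φ A ⊓ Uideal Φ A := by
  have h : uu w ∈ J Φ A := gen_J (nn_nuc hA w) (as_mem _ _ _)
  exact ⟨J_le_D h, J_le_U hA h⟩

end

/-- The independence of the elements `uu` in disjoint sets of generators. -/
theorem indep2 (Φ : Type) [CommRing Φ] (X I : Type) (ι : I × Fin 9 ↪ X) (c : I →₀ Φ)
    (hc : (c.sum fun i r => r • uu (fun j => (FreeAlt.gen (ι (i, Wit.jx j)) : FreeAlt Φ X))) = 0)
    (i₀ : I) : IsNilpotent (6 * c i₀) := by
  classical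
  by_contra hnil
  rw [nilpotent_iff_mem_prime] at hnil
  push Not at hnil
  obtain ⟨P, hP, h6P⟩ := hnil
  let K : Type := FractionRing (Φ ⧸ P)
  let φ : Φ →+* K := (algebraMap (Φ ⧸ P) K).comp (Ideal.Quotient.mk P)
  have hφ : ∀ x : Φ, φ x = 0 → x ∈ P := by
    intro x hx
    have h2 : (algebraMap (Φ ⧸ P) K) (Ideal.Quotient.mk P x) = 0 := hx
    rw [map_eq_zero_iff _ (IsFractionRing.injective (Φ ⧸ P) K)] at h2
    exact Ideal.Quotient.eq_zero_iff_mem.mp h2
  have hK6 : (6 : K) ≠ 0 := by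
    intro h
    apply h6P
    refine P.mul_mem_right _ (hφ 6 ?_)
    rw [map_ofNat]; exact h
  have hKc : φ (c i₀) ≠ 0 := fun h => h6P (P.mul_mem_left _ (hφ _ h))
  have hK2 : (2 : K) ≠ 0 := by
    intro h
    apply hK6
    have : (6 : K) = 2 * 3 := by norm_num
    rw [this, h, zero_mul]
  have hK3 : (3 : K) ≠ 0 := by
    intro h
    apply hK6
    have : (6 : K) = 2 * 3 := by norm_num
    rw [this, h, mul_zero]
  obtain ⟨v, hv⟩ := Wit.witness K hK6
  letI : Module Φ (Env.BS K) := Module.compHom (Env.BS K) φ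
  haveI : IsScalarTower Φ (Env.BS K) (Env.BS K) := ⟨fun r a b => smul_mul_assoc (φ r) a b⟩
  haveI : SMulCommClass Φ (Env.BS K) (Env.BS K) := ⟨fun r a b => (mul_smul_comm (φ r) a b).symm⟩
  let f : X → Env.BS K := fun x => if h : ∃ i, ι (i₀, i) = x then v h.choose else (0 : Env.BS K)
  have hf : ∀ i, f (ι (i₀, i)) = v i := by
    intro i
    have h : ∃ j, ι (i₀, j) = ι (i₀, i) := ⟨i, rfl⟩
    show (if h : ∃ j, ι (i₀, j) = ι (i₀, i) then v h.choose else 0) = v i
    rw [dif_pos h]
    have h2 := ι.injective h.choose_spec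
    exact congrArg v (Prod.mk.inj h2).2
  have hf0 : ∀ i j, i ≠ i₀ → f (ι (i, j)) = 0 := by
    intro i j hi
    refine dif_neg ?_
    rintro ⟨j', hj'⟩
    exact hi (Prod.mk.inj (ι.injective hj')).1.symm
  let g : FreeAlt Φ X →ₙₐ[Φ] Env.BS K := FreeAlt.lift (Env.BS_alt K hK2) f
  let g' : FreeAlt Φ X →ₙ+* Env.BS K :=
    { toFun := g, map_mul' := map_mul g, map_zero' := map_zero g, map_add' := map_add g }
  have hg : ∀ i, g' (FreeAlt.gen (ι (i₀, i))) = v i := fun i =>
    (FreeAlt.lift_gen (Env.BS_alt K hK2) f (ι (i₀, i))).trans (hf i)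
  have hg0 : ∀ i j, i ≠ i₀ → g' (FreeAlt.gen (ι (i, j))) = 0 := fun i j hi =>
    (FreeAlt.lift_gen (Env.BS_alt K hK2) f (ι (i, j))).trans (hf0 i j hi)
  have hgs : ∀ (r : Φ) (a : FreeAlt Φ X), g' (r • a) = φ r • g' a := fun r a => map_smul g r a
  -- the image of the sum
  have hsum : g' (c.sum fun i r => r • uu (fun j => (FreeAlt.gen (ι (i, Wit.jx j)) : FreeAlt Φ X))) =
      φ (c i₀) • uu (fun j => v (Wit.jx j)) := by
    rw [Finsupp.sum, map_sum]
    rw [Finset.sum_eq_single i₀]
    · rw [hgs, map_uu]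
      simp only [hg]
    · intro i _ hi
      rw [hgs, map_uu]
      have h : (fun j => g' (FreeAlt.gen (ι (i, Wit.jx j)))) = fun _ => (0 : Env.BS K) := by
        funext j
        exact hg0 i _ hi
      rw [h, uu_zero, smul_zero]
    · intro hi
      rw [Finsupp.notMem_support_iff.1 hi, zero_smul, map_zero]
  rw [hc, map_zero, uu_eq (Env.BS_alt K hK2)] at hsum
  have h4 := (smul_eq_zero.mp hsum.symm).resolve_left hKc
  rw [← two_zsmul, ← Int.cast_smul_eq_zsmul K] at h4
  have h4' := (smul_eq_zero.mp h4).resolve_left (by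
    have h7 : ((2 : ℤ) : K) = 2 := by norm_num
    rw [h7]
    exact hK2)
  rw [as_zz (Env.BS_alt K hK2)] at h4'
  apply hv
  have h5 : ((2 * 373248 : ℤ) : K) ≠ 0 := by
    have h6 : ((2 * 373248 : ℤ) : K) = 2 ^ 10 * 3 ^ 6 := by norm_num
    rw [h6]
    exact mul_ne_zero (pow_ne_zero _ hK2) (pow_ne_zero _ hK3)
  rw [← Int.cast_smul_eq_zsmul K] at h4'
  exact (smul_eq_zero.mp h4').resolve_left h5

/-- (1) If `6` is not nilpotent in the commutative ring `Φ` (for instance `Φ` is the ring of integers or a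
field of characteristic not two or three) and `X` has at least nine elements (for instance `X` is infinite),
then the free alternative `Φ`-algebra `Alt[X]` is not separated: `D(Alt[X]) ∩ U(Alt[X]) ≠ 0`.

(2) More precisely, let `Φ` be any commutative ring and let the set `X` contain `|I|` disjoint sets of nine
elements. Then there are elements `u i`, `i ∈ I`, of `D(Alt[X]) ∩ U(Alt[X])` such that a linear combination
`∑ c i • u i` is zero only if all `6 * c i` are nilpotent. -/
theorem result :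
    (∀ (Φ : Type) [CommRing Φ], ¬ IsNilpotent (6 : Φ) → ∀ X : Type, Nonempty (Fin 9 ↪ X) →
      Dideal Φ (FreeAlt Φ X) ⊓ Uideal Φ (FreeAlt Φ X) ≠ ⊥) ∧
    (∀ (Φ : Type) [CommRing Φ] (X I : Type), Nonempty (I × Fin 9 ↪ X) →
      ∃ u : I → FreeAlt Φ X,
        (∀ i, u i ∈ Dideal Φ (FreeAlt Φ X) ⊓ Uideal Φ (FreeAlt Φ X)) ∧
        ∀ c : I →₀ Φ, (c.sum fun i r => r • u i) = 0 → ∀ i, IsNilpotent (6 * c i)) := by
  have key : ∀ (Φ : Type) [CommRing Φ] (X I : Type), Nonempty (I × Fin 9 ↪ X) →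
      ∃ u : I → FreeAlt Φ X,
        (∀ i, u i ∈ Dideal Φ (FreeAlt Φ X) ⊓ Uideal Φ (FreeAlt Φ X)) ∧
        ∀ c : I →₀ Φ, (c.sum fun i r => r • u i) = 0 → ∀ i, IsNilpotent (6 * c i) := by
    rintro Φ _ X I ⟨ι⟩
    exact ⟨fun i => uu (fun j => (FreeAlt.gen (ι (i, Wit.jx j)) : FreeAlt Φ X)),
      fun i => uu_mem FreeAlt.isAlt _, fun c hc i => indep2 Φ X I ι c hc i⟩
  refine ⟨?_, key⟩
  rintro Φ _ h6 X ⟨ι⟩ hbot
  obtain ⟨u, hu, h⟩ := key Φ X Unit ⟨(Equiv.punitProd (Fin 9)).toEmbedding.trans ι⟩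
  have hu0 : u () = 0 := by
    have := hu ()
    rwa [hbot, Submodule.mem_bot] at this
  have h2 := h (Finsupp.single () 1) (by
    have e : ((Finsupp.single () (1 : Φ)).sum fun i r => r • u i) = (1 : Φ) • u () :=
      Finsupp.sum_single_index (zero_smul _ _)
    rw [e, hu0, smul_zero]) ()
  rw [Finsupp.single_eq_same, mul_one] at h2
  exact h6 h2

end Pool.Agent.Results.MP_c4e11e_al.NotSeparated
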